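import Pool.Agent.Helper48.OD.St

/-! Project OD (MP_b3ce06_al): module CYC. -/

set_option autoImplicit false

namespace Pool.Agent.Helper91.OD

open Pool.Agent.Helper43.GD Pool.Agent.Helper48.OD

private lemma cyc_p {L : Type} [CommRing L] {H : Subgroup Lˣ} (hH : UI H) :
    ∀ (n : ℕ) (z v : Lˣ), z ∈ H → v ∈ H → z ^ (2 ^ n) = -1 → v ^ (2 ^ n) = -1 →
      ∃ m : ℕ, z ^ m = v := by
  intro n
  induction n with
  | zero =>
    intro z v _ _ h1 h2
    rw [pow_zero, pow_one] at h1 h2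
    exact ⟨1, by rw [pow_one, h1, h2]⟩
  | succ n ih =>
    intro z v hz hv h1 h2
    have e1 : (z ^ 2) ^ (2 ^ n) = -1 := by
      rw [← pow_mul, ← pow_succ']; exact h1
    have e2 : (v ^ 2) ^ (2 ^ n) = -1 := by
      rw [← pow_mul, ← pow_succ']; exact h2
    obtain ⟨m, hm⟩ := ih (z ^ 2) (v ^ 2) (H.pow_mem hz 2) (H.pow_mem hv 2) e1 e2
    have h3 : (v * (z ^ m)⁻¹) ^ 2 = 1 := by
      rw [mul_pow, inv_pow, ← hm, ← pow_mul, ← pow_mul, mul_comm 2 m, mul_inv_cancel]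
    rcases hH _ (H.mul_mem hv (H.inv_mem (H.pow_mem hz m))) h3 with h4 | h4
    · exact ⟨m, (mul_inv_eq_one.1 h4).symm⟩
    · refine ⟨2 ^ (n + 1) + m, ?_⟩
      rw [pow_add, h1, ← h4, inv_mul_cancel_right]

private lemma cyc_t {L : Type} [CommRing L] {H : Subgroup Lˣ} (hH : UI H) {z : Lˣ} (hz : z ∈ H)
    (h1 : z ≠ 1) : ∀ s : ℕ, z ^ (2 ^ s) = 1 → ∃ t : ℕ, z ^ (2 ^ t) = -1 := by
  intro s
  induction s with
  | zero => intro hs; exact absurd (by simpa using hs) h1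
  | succ s ih =>
    intro hs
    by_cases hc : z ^ (2 ^ s) = 1
    · exact ih hc
    · have h2 : (z ^ (2 ^ s)) ^ 2 = 1 := by rw [← pow_mul, ← pow_succ, hs]
      rcases hH _ (H.pow_mem hz _) h2 with h | h
      · exact absurd h hc
      · exact ⟨s, h⟩

/-- Module CYC. -/
theorem hCYC : StCYC := by
  intro L _ H v ζ n hH hv hζ hvn ⟨s, hs⟩
  by_cases h1 : ζ = 1
  · exact Or.inr ⟨0, by rw [pow_zero, h1]⟩
  · obtain ⟨t, ht⟩ := cyc_t hH hζ h1 s hs
    rcases le_or_gt n t with h | h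
    · left
      have e : (ζ ^ (2 ^ (t - n))) ^ (2 ^ n) = -1 := by
        rw [← pow_mul, ← pow_add, Nat.sub_add_cancel h, ht]
      obtain ⟨m, hm⟩ := cyc_p hH n _ v (H.pow_mem hζ _) hv e hvn
      exact ⟨2 ^ (t - n) * m, by rw [pow_mul, hm]⟩
    · right
      have e : (v ^ (2 ^ (n - t))) ^ (2 ^ t) = -1 := by
        rw [← pow_mul, ← pow_add, Nat.sub_add_cancel h.le, hvn]
      obtain ⟨m, hm⟩ := cyc_p hH t _ ζ (H.pow_mem hv _) hζ e ht
      exact ⟨2 ^ (n - t) * m, by rw [pow_mul, hm]⟩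

end Pool.Agent.Helper91.OD
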