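import Pool.Agent.Helper95.OD.St

set_option autoImplicit false

namespace Pool.Agent.Helper91.OD

open Pool.Agent.Helper95.OD Finset
open scoped Classical

theorem hCB : CB := by
  intro hCU m r s c
  have hne : c.1.1.1 ≠ c.1.1.2 := ne_of_lt c.1.2
  -- the sets with two given vertices
  let P : Vx m r → Vx m r → Finset (Finset (Vx m r)) := fun u v =>
    ((univ : Finset (Vx m r)).powersetCard s).filter (fun X => u ∈ X ∧ v ∈ X)
  let A : Finset (Finset (Vx m r)) :=
    (univ : Finset (Fin r)).biUnion (fun y => P (lo c) (c.1.1.2, y))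
  let B : Finset (Finset (Vx m r)) :=
    (univ : Finset (Fin r)).biUnion (fun x => P (c.1.1.1, x) (hi c))
  have hsub : (KB m r s).filter (fun N => ∃ b ∈ N, Cc c b) ⊆ (A ∪ B).image cells := by
    intro N hN
    rw [mem_filter] at hN
    obtain ⟨hN1, b, hb, hcb⟩ := hN
    unfold KB at hN1
    rw [mem_image] at hN1
    obtain ⟨X, hX, rfl⟩ := hN1
    rw [mem_filter] at hX
    rw [mem_image]
    refine ⟨X, ?_, rfl⟩
    unfold cells at hb
    rw [mem_filter] at hb
    obtain ⟨-, hlo, hhi⟩ := hb
    obtain ⟨h1, -, h2⟩ := hcb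
    rw [mem_union]
    rcases h2 with h2 | h2
    · left
      refine mem_biUnion.mpr ⟨b.2.2, mem_univ _, mem_filter.mpr ⟨hX.1, ?_, ?_⟩⟩
      · have : lo c = lo b := by
          unfold lo
          rw [h1, h2]
        rw [this]; exact hlo
      · have : ((c.1.1.2, b.2.2) : Vx m r) = hi b := by
          unfold hi
          rw [h1]
        rw [this]; exact hhi
    · right
      refine mem_biUnion.mpr ⟨b.2.1, mem_univ _, mem_filter.mpr ⟨hX.1, ?_, ?_⟩⟩
      · have : ((c.1.1.1, b.2.1) : Vx m r) = lo b := by
          unfold lo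
          rw [h1]
        rw [this]; exact hlo
      · have : hi c = hi b := by
          unfold hi
          rw [h1, h2]
        rw [this]; exact hhi
  have hA : A.card ≤ r * (m * r) ^ (s - 2) := by
    have h := card_biUnion_le_card_mul (univ : Finset (Fin r))
      (fun y => P (lo c) (c.1.1.2, y)) ((m * r) ^ (s - 2)) (fun y _ => hCU m r s _ _ (by
        intro h
        exact hne (congrArg Prod.fst h)))
    simpa using h
  have hB : B.card ≤ r * (m * r) ^ (s - 2) := by
    have h := card_biUnion_le_card_mul (univ : Finset (Fin r))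
      (fun x => P (c.1.1.1, x) (hi c)) ((m * r) ^ (s - 2)) (fun y _ => hCU m r s _ _ (by
        intro h
        exact hne (congrArg Prod.fst h)))
    simpa using h
  calc ((KB m r s).filter (fun N => ∃ b ∈ N, Cc c b)).card ≤ ((A ∪ B).image cells).card :=
        card_le_card hsub
    _ ≤ (A ∪ B).card := card_image_le
    _ ≤ A.card + B.card := card_union_le _ _
    _ ≤ 2 * (r * (m * r) ^ (s - 2)) := by omega

end Pool.Agent.Helper91.OD
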